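import Pool.Agent.Y838.EX.Surf

/-!
# Project EX: the function for the conformal change (job HEX)
-/

set_option autoImplicit false

open Set Filter Topology MeasureTheory
open scoped ContDiff ComplexConjugate Real

noncomputable section

namespace Pool.Agent.Y838.EX

open Pool.Agent.Y262.EG Pool.Agent.Y262.EX

/-- the function which is given by `b (re z)` on the cylinder -/
def hh {M : Type} (pr : ℂ → M) (L δ' : ℝ) (b : ℝ → ℝ) (x : M) : ℝ := by
  classical
  exact if h : ∃ z, z ∈ Stp L δ' ∧ pr z = x then b h.choose.re else 0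

section

variable {M : Type} {pr : ℂ → M} {L δ' : ℝ} {b : ℝ → ℝ}

lemma hh_val (hin : ∀ z ∈ Stp L δ', ∀ w ∈ Stp L δ', pr z = pr w →
    ∃ n : ℤ, w = z + n * (2 * Real.pi * Complex.I)) {z : ℂ} (hz : z ∈ Stp L δ') :
    hh pr L δ' b (pr z) = b z.re := by
  have h : ∃ w, w ∈ Stp L δ' ∧ pr w = pr z := ⟨z, hz, rfl⟩
  unfold hh
  rw [dif_pos h]
  obtain ⟨n, hn⟩ := hin _ h.choose_spec.1 _ hz h.choose_spec.2
  have hre : z.re = (h.choose).re := by
    conv_lhs => rw [hn]
    simp
  rw [hre]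

lemma hh_off {x : M} (h : ¬ ∃ z, z ∈ Stp L δ' ∧ pr z = x) : hh pr L δ' b x = 0 := by
  unfold hh
  rw [dif_neg h]

lemma hh_cases (hin : ∀ z ∈ Stp L δ', ∀ w ∈ Stp L δ', pr z = pr w →
    ∃ n : ℤ, w = z + n * (2 * Real.pi * Complex.I)) {x : M} (hx : hh pr L δ' b x ≠ 0) :
    ∃ z ∈ Stp L δ', pr z = x ∧ b z.re ≠ 0 := by
  by_cases h : ∃ z, z ∈ Stp L δ' ∧ pr z = x
  · obtain ⟨z, hz, rfl⟩ := h
    rw [hh_val hin hz] at hx
    exact ⟨z, hz, rfl, hx⟩
  · exact absurd (hh_off h) hx

lemma stp_add {z : ℂ} (hz : z ∈ Stp L δ') (t : ℝ) : z + t * Complex.I ∈ Stp L δ' := by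
  simpa [Stp] using hz

lemma per_nat (hper : ∀ z ∈ Stp L δ', pr (z + 2 * Real.pi * Complex.I) = pr z) (n : ℕ) :
    ∀ z ∈ Stp L δ', pr (z + n * (2 * Real.pi * Complex.I)) = pr z := by
  induction n with
  | zero => intro z _; simp
  | succ n ih =>
    intro z hz
    have h1 : z + ((n + 1 : ℕ) : ℂ) * (2 * Real.pi * Complex.I) =
        (z + n * (2 * Real.pi * Complex.I)) + 2 * Real.pi * Complex.I := by
      push_cast; ring
    have h2 : z + n * (2 * Real.pi * Complex.I) ∈ Stp L δ' := by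
      have := stp_add hz (n * (2 * Real.pi))
      convert this using 2
      push_cast; ring
    rw [h1, hper _ h2, ih z hz]

lemma per_int (hper : ∀ z ∈ Stp L δ', pr (z + 2 * Real.pi * Complex.I) = pr z) (n : ℤ) :
    ∀ z ∈ Stp L δ', pr (z + n * (2 * Real.pi * Complex.I)) = pr z := by
  intro z hz
  obtain ⟨m, rfl | rfl⟩ := n.eq_nat_or_neg
  · exact_mod_cast per_nat hper m z hz
  · have h2 : z + ((-(m : ℤ) : ℤ) : ℂ) * (2 * Real.pi * Complex.I) ∈ Stp L δ' := by
      have := stp_add hz (-(m * (2 * Real.pi)))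
      convert this using 2
      push_cast; ring
    have h3 := per_nat hper m _ h2
    rw [← h3]
    congr 1
    push_cast; ring

end

/-- **job HEX** -/
theorem hex : StHex := by
  intro M P _ _ _ _ Ω φ pr q L δ δ' κ C g σ hU hC hR
  have hlt := hC.ltδ
  have hδ := hC.posδ
  have hL := hC.posL
  set δ'' : ℝ := (δ + δ') / 2 with hδ''
  have h1 : δ < δ'' := by rw [hδ'']; linarith
  have h2 : δ'' < δ' := by rw [hδ'']; linarith
  have hsub : Stp L δ'' ⊆ Stp L δ' := by
    rintro z ⟨ha, hb⟩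
    exact ⟨by linarith, by linarith⟩
  set ε : ℝ := (δ' - δ'') / 4 with hε
  have hε0 : 0 < ε := by rw [hε]; linarith
  set c : ℝ := L + δ'' + 2 * ε with hc
  let b : ContDiffBump c := ⟨ε / 2, ε, by linarith, by linarith⟩
  have hb0 : ∀ x : ℝ, b x ≠ 0 → |x - c| < ε := by
    intro x hx
    by_contra hcon
    push Not at hcon
    exact hx (b.zero_of_le_dist (by rw [Real.dist_eq]; exact hcon))
  have hbc : b c = 1 := b.one_of_mem_closedBall (Metric.mem_closedBall_self b.rIn_pos.le)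
  have hin := hC.inj
  have hcI : (c : ℂ) ∈ Stp L δ' := by
    refine ⟨?_, ?_⟩
    · simp only [Complex.ofReal_re]; linarith
    · simp only [Complex.ofReal_re]; rw [hc]; linarith
  have hStpO : IsOpen (Stp L δ') := by
    have h : Stp L δ' = Complex.re ⁻¹' (Ioo (-δ') (L + δ')) := by
      ext z; simp [Stp]
    rw [h]
    exact isOpen_Ioo.preimage Complex.continuous_re
  -- the compact set
  let R : Set ℂ := {z | (c - ε ≤ z.re ∧ z.re ≤ c + ε) ∧ (0 ≤ z.im ∧ z.im ≤ 2 * π)}
  have hRsub : R ⊆ Stp L δ' := by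
    rintro z ⟨⟨ha, hb⟩, -⟩
    exact ⟨by linarith, by linarith⟩
  have hRc : IsCompact R := by
    have hR1 : R = (Icc (c - ε) (c + ε)) ×ℂ (Icc 0 (2 * π)) := by
      ext z
      simp [R, Complex.mem_reProdIm]
    rw [hR1]
    exact isCompact_Icc.reProdIm isCompact_Icc
  have hKc : IsClosed (pr '' R) :=
    (hRc.image_of_continuousOn (hU.contp.mono (hRsub.trans hC.strip))).isClosed
  have hK : ∀ x, hh pr L δ' b x ≠ 0 → x ∈ pr '' R := by
    intro x hx
    obtain ⟨z, hz, rfl, hbz⟩ := hh_cases hin hx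
    have habs := abs_lt.1 (hb0 _ hbz)
    have hpi := Real.pi_pos
    set n : ℤ := -⌊z.im / (2 * π)⌋ with hn
    refine ⟨z + n * (2 * Real.pi * Complex.I), ⟨⟨?_, ?_⟩, ?_, ?_⟩, per_int hC.per n z hz⟩
    · simp only [Complex.add_re, Complex.mul_re, Complex.intCast_re, Complex.intCast_im]
      simp
      linarith
    · simp only [Complex.add_re, Complex.mul_re, Complex.intCast_re, Complex.intCast_im]
      simp
      linarith
    · have h3 : (z + n * (2 * Real.pi * Complex.I)).im = z.im + n * (2 * π) := by simp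
      rw [h3, hn]
      have h4 := Int.floor_le (z.im / (2 * π))
      rw [le_div_iff₀ (by positivity)] at h4
      push_cast
      linarith
    · have h3 : (z + n * (2 * Real.pi * Complex.I)).im = z.im + n * (2 * π) := by simp
      rw [h3, hn]
      have h4 := (Int.lt_floor_add_one (z.im / (2 * π))).le
      rw [div_le_iff₀ (by positivity)] at h4
      push_cast
      linarith
  have hsm : ∀ z ∈ Ω, ContDiffAt ℝ ∞ (fun z => hh pr L δ' b (pr z)) z := by
    intro z hz
    by_cases hzK : pr z ∈ pr '' R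
    · obtain ⟨w, hw, hwz⟩ := hzK
      have hwS := hRsub hw
      obtain ⟨r, γ, hr, hb, hd, hγ, hp⟩ := deck_germ hU hz (hC.strip hwS) hwz.symm
      have hnb : Metric.ball z r ∈ 𝓝 z := Metric.ball_mem_nhds z hr
      have hcd : ContDiffAt ℝ ∞ γ z :=
        ((hd.contDiffOn Metric.isOpen_ball).contDiffAt hnb : ContDiffAt ℂ ∞ γ z).restrict_scalars ℝ
      have hev : (fun z => hh pr L δ' b (pr z)) =ᶠ[𝓝 z] fun ζ => b (γ ζ).re := by
        have h3 : ∀ᶠ ζ in 𝓝 z, γ ζ ∈ Stp L δ' := by
          apply hcd.continuousAt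
          rw [hγ]
          exact hStpO.mem_nhds hwS
        filter_upwards [h3, hnb] with ζ hζ hζb
        rw [← (hp ζ hζb).2.1, hh_val hin hζ]
      refine ContDiffAt.congr_of_eventuallyEq ?_ hev
      have h4 : ContDiffAt ℝ ∞ (fun ζ => (γ ζ).re) z :=
        (Complex.reCLM.contDiff.contDiffAt (n := ∞)).comp z hcd
      exact (b.contDiff.contDiffAt (n := ∞)).comp z h4
    · have hev : (fun z => hh pr L δ' b (pr z)) =ᶠ[𝓝 z] fun _ => 0 := by
        have h3 : ∀ᶠ ζ in 𝓝 z, pr ζ ∈ (pr '' R)ᶜ := by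
          have h5 := (hU.contp z hz).continuousAt (hU.opn.mem_nhds hz)
          exact h5 (hKc.isOpen_compl.mem_nhds hzK)
        filter_upwards [h3] with ζ hζ
        by_contra hcon
        exact hζ (hK _ hcon)
      exact contDiffAt_const.congr_of_eventuallyEq hev
  have hcO : ContinuousOn (fun z => hh pr L δ' b (pr z)) Ω := fun z hz =>
    (hsm z hz).continuousAt.continuousWithinAt
  have hover : ∀ x, (∃ z, z ∈ Stp L δ' ∧ pr z = x) → hh pr L δ' b (σ x) = hh pr L δ' b x := by
    rintro x ⟨z, hz, rfl⟩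
    have hz' : conj z ∈ Stp L δ' := by simpa [Stp] using hz
    rw [hR.rfl' z (hC.strip hz), hh_val hin hz', hh_val hin hz, Complex.conj_re]
  have hσσ : ∀ x, σ (σ x) = x := by
    intro x
    have hx : x ∈ pr '' Ω := by rw [hU.surjp]; trivial
    obtain ⟨z, hz, rfl⟩ := hx
    rw [hR.rfl' z hz, hR.rfl' _ (hR.maps z hz), Complex.conj_conj]
  refine ⟨δ'', hh pr L δ' b, ?_, ?_, ?_, ?_, ?_, ?_, ?_⟩
  · exact
    { posL := hC.posL
      posδ := hC.posδ
      ltδ := h1
      posκ := hC.posκ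
      strip := hsub.trans hC.strip
      rot := fun z hz => hC.rot z (hsub hz)
      flat := hC.flat
      per := fun z hz => hC.per z (hsub hz)
      inj := fun z hz w hw => hC.inj z (hsub hz) w (hsub hw)
      neg := hC.neg
      low := hC.low
      zero := hC.zero
      der := hC.der
      conn := hC.conn }
  · rw [continuous_def]
    intro V hV
    have h3 : hh pr L δ' b ⁻¹' V = pr '' (Ω ∩ (fun z => hh pr L δ' b (pr z)) ⁻¹' V) := by
      ext x
      constructor
      · intro hx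
        have hx' : x ∈ pr '' Ω := by rw [hU.surjp]; trivial
        obtain ⟨z, hz, rfl⟩ := hx'
        exact ⟨z, ⟨hz, hx⟩, rfl⟩
      · rintro ⟨z, ⟨-, hz⟩, rfl⟩
        exact hz
    rw [h3]
    exact hU.opnp _ (hcO.isOpen_inter_preimage hU.opn hV) inter_subset_left
  · intro x
    by_cases h : ∃ z, z ∈ Stp L δ' ∧ pr z = x
    · obtain ⟨z, hz, rfl⟩ := h
      rw [hh_val hin hz]
      exact b.nonneg
    · rw [hh_off h]
  · intro x
    by_cases h : ∃ z, z ∈ Stp L δ' ∧ pr z = x
    · exact hover x h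
    · by_cases h' : ∃ z, z ∈ Stp L δ' ∧ pr z = σ x
      · have h3 := hover (σ x) h'
        rw [hσσ] at h3
        exact h3.symm
      · rw [hh_off h, hh_off h']
  · exact fun z hz => (hsm z hz).contDiffWithinAt
  · intro z hz
    rw [hh_val hin (hsub hz)]
    by_contra hcon
    have h3 := abs_lt.1 (hb0 _ hcon)
    have h4 := hz.2
    linarith [h3.1]
  · refine ⟨pr c, ?_⟩
    rw [hh_val hin hcI, Complex.ofReal_re, hbc]
    exact one_ne_zero

end Pool.Agent.Y838.EX
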