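import Pool.Agent.Y262.EX.Stm

/-!
# Project EX: the atlas defines a Riemannian surface (job SURF)
-/

set_option autoImplicit false

open Set Filter Topology MeasureTheory
open scoped ContDiff ComplexConjugate Real

noncomputable section

namespace Pool.Agent.Y838.EX

open Pool.Agent.Y262.EG Pool.Agent.Y262.EX

/-- the deck germ without the angle -/
lemma deck_germ {M P : Type} [TopologicalSpace M] [TopologicalSpace P] {Ω : Set ℂ} {φ : ℂ → ℝ}
    {pr : ℂ → M} {q : Y → P} (hU : IsUT Ω φ pr q) {z w : ℂ} (hz : z ∈ Ω) (hw : w ∈ Ω)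
    (h : pr z = pr w) : ∃ (r : ℝ) (γ : ℂ → ℂ), 0 < r ∧ Metric.ball z r ⊆ Ω ∧
      DifferentiableOn ℂ γ (Metric.ball z r) ∧ γ z = w ∧
      ∀ ζ ∈ Metric.ball z r, γ ζ ∈ Ω ∧ pr (γ ζ) = pr ζ ∧ deriv γ ζ ≠ 0 ∧
        φ (γ ζ) + Real.log ‖deriv γ ζ‖ = φ ζ := by
  obtain ⟨θ', r, γ, h1, h2, h3, h4, h5, -⟩ := hU.deck z hz w hw h 0
  exact ⟨r, γ, h1, h2, h3, h4, h5⟩

/-- the norm factor of a deck germ -/
lemma norm_factor {φz φw : ℝ} {d : ℂ} (hd : d ≠ 0) (h : φw + Real.log ‖d‖ = φz) :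
    Real.exp φw * ‖d‖ = Real.exp φz := by
  rw [← h, Real.exp_add, Real.exp_log (norm_pos_iff.2 hd)]

/-- the values of the inverse on the image -/
lemma inv_pr {M : Type} {pr : ℂ → M} {S : Set ℂ} (h : InjOn pr S) {z : ℂ} (hz : z ∈ S) :
    Function.invFunOn pr S (pr z) = z := h.leftInvOn_invFunOn hz

/-- the chart in another chart is the deck germ -/
lemma chart_germ {M P : Type} [TopologicalSpace M] [TopologicalSpace P] {Ω : Set ℂ} {φ : ℂ → ℝ}
    {pr : ℂ → M} {q : Y → P} (hU : IsUT Ω φ pr q) {S : Set ℂ} (hS : IsOpen S) (hSO : S ⊆ Ω)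
    (hi : InjOn pr S) {z w : ℂ} (hz : z ∈ Ω) (hw : w ∈ S) (h : pr z = pr w) :
    ∃ γ : ℂ → ℂ, γ z = w ∧ (fun ζ => Function.invFunOn pr S (pr ζ)) =ᶠ[𝓝 z] γ ∧
      DifferentiableAt ℂ γ z ∧ ContDiffAt ℝ 1 γ z ∧ ContDiffAt ℝ ∞ γ z ∧
      (∀ v : ℂ, fderiv ℝ γ z v = deriv γ z * v) ∧ Real.exp (φ w) * ‖deriv γ z‖ = Real.exp (φ z) := by
  obtain ⟨r, γ, hr, hb, hd, hγ, hp⟩ := deck_germ hU hz (hSO hw) h
  have hz0 : z ∈ Metric.ball z r := Metric.mem_ball_self hr
  have hnb : Metric.ball z r ∈ 𝓝 z := Metric.ball_mem_nhds z hr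
  have hdz : DifferentiableAt ℂ γ z := hd.differentiableAt hnb
  have hcd : ∀ n : WithTop ℕ∞, ContDiffAt ℂ n γ z := fun n =>
    (hd.contDiffOn Metric.isOpen_ball).contDiffAt hnb
  refine ⟨γ, hγ, ?_, hdz, (hcd 1).restrict_scalars ℝ, (hcd ∞).restrict_scalars ℝ, ?_, ?_⟩
  · have h1 : ∀ᶠ ζ in 𝓝 z, γ ζ ∈ S := by
      apply hdz.continuousAt
      rw [hγ]
      exact hS.mem_nhds hw
    filter_upwards [h1, hnb] with ζ hζ hζb
    rw [← (hp ζ hζb).2.1]
    exact inv_pr hi hζ
  · intro v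
    have h2 : HasFDerivAt γ (ContinuousLinearMap.toSpanSingleton ℂ (deriv γ z)) z :=
      hdz.hasDerivAt.hasFDerivAt
    rw [(h2.restrictScalars ℝ).fderiv]
    simp [mul_comm]
  · have h3 := (hp z hz0).2.2
    rw [hγ] at h3
    exact norm_factor h3.1 h3.2

/-- the determinant of a multiple of the identity of the plane -/
lemma det_smul_id (c : ℝ) : (c • ContinuousLinearMap.id ℝ ℂ).det = c ^ 2 := by
  have h : ((c • ContinuousLinearMap.id ℝ ℂ : ℂ →L[ℝ] ℂ) : ℂ →ₗ[ℝ] ℂ) = c • LinearMap.id := by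
    ext <;> simp
  rw [ContinuousLinearMap.det, h, LinearMap.det_smul, LinearMap.det_id, Complex.finrank_real_complex]
  simp

/-- the image of the inverse on a subset of the chart -/
lemma image_inv {M : Type} {pr : ℂ → M} {S : Set ℂ} (h : InjOn pr S) {B : Set M}
    (hB : B ⊆ pr '' S) : Function.invFunOn pr S '' B = S ∩ pr ⁻¹' B := by
  ext z
  constructor
  · rintro ⟨x, hx, rfl⟩
    obtain ⟨ζ, hζ, rfl⟩ := hB hx
    rw [inv_pr h hζ]
    exact ⟨hζ, hx⟩
  · rintro ⟨hz, hzB⟩
    exact ⟨pr z, hzB, inv_pr h hz⟩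

/-- **job SURF** -/
theorem surf : StSurf := by
  intro M P _ _ _ _ _ _ Ω φ pr q μ L N T hU hA hT
  have hTi : ∀ i, (mkD φ pr N T).T i = T i := by
    intro i
    change Function.invFunOn pr (T i) '' (pr '' T i) = T i
    rw [image_inv (hT.inj i) Subset.rfl]
    ext z
    constructor
    · exact fun h => h.1
    · exact fun h => ⟨h, z, h, rfl⟩
  have hφc : ∀ i, ContinuousOn φ (T i) := fun i => (hU.smooth.continuousOn).mono (hT.sub i)
  have hmem : ∀ i, ∀ x ∈ pr '' T i, Function.invFunOn pr (T i) x ∈ T i ∧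
      pr (Function.invFunOn pr (T i) x) = x := by
    rintro i _ ⟨z, hz, rfl⟩
    rw [inv_pr (hT.inj i) hz]
    exact ⟨hz, rfl⟩
  refine ⟨?_, ?_, hTi⟩
  · refine
    { openU := fun i => hU.opnp _ (hT.opn i) (hT.sub i)
      cover := hT.cov
      left := fun i x hx => (hmem i x hx).2
      contφ := ?_
      openT := fun i => by rw [hTi i]; exact hT.opn i
      contψ := fun i => by rw [hTi i]; exact hU.contp.mono (hT.sub i)
      det := ?_
      contA := ?_
      tr := ?_
      area := ?_ }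
    · intro i
      change ContinuousOn (Function.invFunOn pr (T i)) (pr '' T i)
      intro x hx
      have hx' := hmem i x hx
      intro V hV
      obtain ⟨V', hV', hVo, hxV⟩ := mem_nhds_iff.1 hV
      have h1 : IsOpen (pr '' (T i ∩ V')) :=
        hU.opnp _ ((hT.opn i).inter hVo) (inter_subset_left.trans (hT.sub i))
      have h2 : x ∈ pr '' (T i ∩ V') := ⟨_, ⟨hx'.1, hxV⟩, hx'.2⟩
      apply mem_nhdsWithin_of_mem_nhds
      apply mem_of_superset (h1.mem_nhds h2)
      rintro _ ⟨z, ⟨hz1, hz2⟩, rfl⟩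
      change Function.invFunOn pr (T i) (pr z) ∈ V
      rw [inv_pr (hT.inj i) hz1]
      exact hV' hz2
    · intro i z _
      change (Real.exp (φ z) • ContinuousLinearMap.id ℝ ℂ).det ≠ 0
      rw [det_smul_id]
      have := Real.exp_pos (φ z)
      positivity
    · intro i
      rw [hTi i]
      change ContinuousOn (fun z => Real.exp (φ z) • ContinuousLinearMap.id ℝ ℂ) (T i)
      exact (Real.continuous_exp.comp_continuousOn (hφc i)).smul continuousOn_const
    · intro i j x hx hx'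
      obtain ⟨hz0, hz1⟩ := hmem i x hx
      obtain ⟨hw0, hw1⟩ := hmem j x hx'
      obtain ⟨γ, h1, h2, h3, h4, h4', h5, h6⟩ := chart_germ hU (hT.opn j) (hT.sub j) (hT.inj j)
        (hT.sub i hz0) hw0 (hz1.trans hw1.symm)
      change ContDiffAt ℝ 1 (fun z => Function.invFunOn pr (T j) (pr z))
          (Function.invFunOn pr (T i) x) ∧ ∀ v,
        ‖(Real.exp (φ (Function.invFunOn pr (T j) x)) • ContinuousLinearMap.id ℝ ℂ)
            (fderiv ℝ (fun z => Function.invFunOn pr (T j) (pr z))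
              (Function.invFunOn pr (T i) x) v)‖ =
          ‖(Real.exp (φ (Function.invFunOn pr (T i) x)) • ContinuousLinearMap.id ℝ ℂ) v‖
      refine ⟨h4.congr_of_eventuallyEq h2, fun v => ?_⟩
      rw [h2.fderiv_eq, h5 v, ← h6]
      simp only [smul_apply, ContinuousLinearMap.id_apply, norm_smul, norm_mul,
        Real.norm_eq_abs, Real.abs_exp, abs_norm]
      ring
    · intro i B hB hBm
      change B ⊆ pr '' T i at hB
      change μ B = ∫⁻ z in Function.invFunOn pr (T i) '' B,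
        ENNReal.ofReal |(Real.exp (φ z) • ContinuousLinearMap.id ℝ ℂ).det|
      rw [image_inv (hT.inj i) hB]
      have hm : MeasurableSet (T i ∩ pr ⁻¹' B) := by
        have hc : ContinuousOn pr (T i) := hU.contp.mono (hT.sub i)
        have h1 : MeasurableSet ((T i).domRestrict pr ⁻¹' B) :=
          (continuousOn_iff_continuous_domRestrict.1 hc).measurable hBm
        have h2 := (hT.opn i).measurableSet.subtype_image h1
        have h3 : Subtype.val '' ((T i).domRestrict pr ⁻¹' B) = T i ∩ pr ⁻¹' B := by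
          ext z
          constructor
          · rintro ⟨y, hy, rfl⟩
            exact ⟨y.2, hy⟩
          · rintro ⟨hz, hzB⟩
            exact ⟨⟨z, hz⟩, hzB, rfl⟩
        rwa [h3] at h2
      have hB' : pr '' (T i ∩ pr ⁻¹' B) = B := by
        ext x
        constructor
        · rintro ⟨z, hz, rfl⟩
          exact hz.2
        · intro hx
          obtain ⟨z, hz, rfl⟩ := hB hx
          exact ⟨z, ⟨hz, hx⟩, rfl⟩
      have h1 := hA (T i ∩ pr ⁻¹' B) hm (inter_subset_left.trans (hT.sub i))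
        ((hT.inj i).mono inter_subset_left)
      rw [hB'] at h1
      rw [h1]
      apply lintegral_congr
      intro z
      rw [det_smul_id, abs_of_nonneg (sq_nonneg _), ← Real.exp_nat_mul]
      norm_num
  · intro i
    refine ⟨id, differentiableOn_id, ?_⟩
    rw [hTi i]
    intro z hz
    refine ⟨hT.sub i hz, rfl, by simp, fun v => ?_⟩
    change ‖(Real.exp (φ z) • ContinuousLinearMap.id ℝ ℂ) v‖ = _
    simp only [smul_apply, ContinuousLinearMap.id_apply, norm_smul,
        Real.norm_eq_abs, Real.abs_exp, id_eq, deriv_id, norm_one, mul_one]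

end Pool.Agent.Y838.EX
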