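import Pool.Agent.Y262.EX.Stm

/-!
# Project EX: existence of the atlas (job ATL)
-/

set_option autoImplicit false

open Set Filter Topology MeasureTheory
open scoped ContDiff ComplexConjugate Real

noncomputable section

namespace Pool.Agent.Y838.EX

open Pool.Agent.Y262.EG Pool.Agent.Y262.EX

/-- the rectangles are contained in the strip -/
lemma rec_sub {L δ' b : ℝ} (h : 0 < δ') : Pool.Agent.Y262.QE.Rec L b ⊆ Stp L δ' := by
  rintro z ⟨⟨h1, h2⟩, -⟩
  exact ⟨by linarith, by linarith⟩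

/-- the rectangles are open -/
lemma rec_open (L b : ℝ) : IsOpen (Pool.Agent.Y262.QE.Rec L b) := by
  have h : Pool.Agent.Y262.QE.Rec L b =
      Complex.re ⁻¹' (Ioo 0 L) ∩ Complex.im ⁻¹' (Ioo b (b + 2 * π)) := by
    ext z
    simp [Pool.Agent.Y262.QE.Rec]
  rw [h]
  exact (isOpen_Ioo.preimage Complex.continuous_re).inter
    (isOpen_Ioo.preimage Complex.continuous_im)

/-- **job ATL** -/
theorem atl : StAtl := by
  intro M P _ _ _ _ Ω φ pr q L δ δ' κ C g hU hC
  have hδ' : 0 < δ' := hC.posδ.trans hC.ltδ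
  have hsub : ∀ b, Pool.Agent.Y262.QE.Rec L b ⊆ Ω := fun b => (rec_sub hδ').trans hC.strip
  have hinj : ∀ b, InjOn pr (Pool.Agent.Y262.QE.Rec L b) := by
    intro b z hz w hw hzw
    obtain ⟨n, hn⟩ := hC.inj z (rec_sub hδ' hz) w (rec_sub hδ' hw) hzw
    have him : w.im = z.im + n * (2 * π) := by
      rw [hn]; simp
    have h1 := hz.2.1
    have h2 := hz.2.2
    have h3 := hw.2.1
    have h4 := hw.2.2
    have hpi := Real.pi_pos
    have hn0 : n = 0 := by
      have ha : (n : ℝ) < 1 := by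
        by_contra hcon
        push Not at hcon
        nlinarith
      have hb : (-1 : ℝ) < n := by
        by_contra hcon
        push Not at hcon
        nlinarith
      have ha' : n < 1 := by exact_mod_cast ha
      have hb' : -1 < n := by exact_mod_cast hb
      omega
    rw [hn, hn0]
    simp
  choose! r hr hrs hri using hU.injp
  have hcov : (univ : Set M) ⊆ ⋃ z : Ω, pr '' Metric.ball z.1 (r z.1) := by
    intro x _
    have hx : x ∈ pr '' Ω := by rw [hU.surjp]; trivial
    obtain ⟨z, hz, rfl⟩ := hx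
    exact mem_iUnion.2 ⟨⟨z, hz⟩, z, Metric.mem_ball_self (hr z hz), rfl⟩
  obtain ⟨t, ht⟩ := isCompact_univ.elim_finite_subcover (fun z : Ω => pr '' Metric.ball z.1 (r z.1))
    (fun z => hU.opnp _ Metric.isOpen_ball (hrs z.1 z.2)) hcov
  classical
  let F : Bool ⊕ t → Set ℂ := Sum.elim
    (fun b => if b then Pool.Agent.Y262.QE.Rec L (-π) else Pool.Agent.Y262.QE.Rec L 0)
    (fun z => Metric.ball z.1.1 (r z.1.1))
  have hF : ∀ i, IsOpen (F i) ∧ F i ⊆ Ω ∧ InjOn pr (F i) := by
    rintro (b | z)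
    · cases b
      · exact ⟨rec_open _ _, hsub _, hinj _⟩
      · exact ⟨rec_open _ _, hsub _, hinj _⟩
    · exact ⟨Metric.isOpen_ball, hrs _ z.1.2, hri _ z.1.2⟩
  let e := Fintype.equivFin (Bool ⊕ t)
  refine ⟨Fintype.card (Bool ⊕ t), fun i => F (e.symm i), fun i => (hF _).1, fun i => (hF _).2.1,
    fun i => (hF _).2.2, ?_, ?_⟩
  · intro x
    have hx := ht (mem_univ x)
    simp only [mem_iUnion] at hx
    obtain ⟨z, hz, hxz⟩ := hx
    refine ⟨e (Sum.inr ⟨z, hz⟩), ?_⟩
    simp only [Equiv.symm_apply_apply]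
    exact hxz
  · rintro b (rfl | rfl)
    · refine ⟨e (Sum.inl true), ?_⟩
      simp [F]
    · refine ⟨e (Sum.inl false), ?_⟩
      simp [F]

end Pool.Agent.Y838.EX
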